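import Pool.Agent.H28.GU.Defs
import Pool.Agent.H31.DPD.Defs

/-!
Statements of the inductive step of the project GU on `MP_c59857_nt`.
-/

set_option autoImplicit false

open Finset Filter Topology

namespace Pool.Agent.H28.GU

open Pool.Agent.H24.T2 (Pset)
open Pool.Agent.H31.DPD (DDc)

/-- [GA] The arithmetic half of the inductive step: at a scale with a small defect, a dense family
of large Fourier coefficients gives a relation between the frequencies at affine images. -/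
def T_GA : Prop :=
  ∀ (d l : ℕ) (h : Fin l → ℕ) (δ c₀ : ℝ), 0 < δ → 0 < c₀ →
    ∃ θ : ℝ, 0 < θ ∧ ∃ m₀ : ℕ, ∀ m, m₀ ≤ m → c₀ * 2 ^ m / m ≤ ((Pset 1 m).card : ℝ) →
      ∃ P : ℕ, 0 < P ∧ P ≤ 2 ^ (m + 1) ∧ ∃ (K B k : ℕ) (f : ℝ), 0 < f ∧
        ∀ (M N q : ℕ) [Fact q.Prime], K ≤ N → M / P = N → 5 * N ≤ q → q ≤ 10 * N + 10 →
          ∑ p ∈ Pset 1 m, DDc (d + 1) h p M ≤ θ * (Pset 1 m).card * (M : ℝ) ^ (d + 3) →
          ∀ (τ : (Fin d → ZMod q) → ZMod q)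
            (R : Finset ((Fin d → ZMod q) × (Fin d → ZMod q))),
            δ * (q : ℝ) ^ (2 * d) ≤ (R.card : ℝ) →
            (∀ z ∈ R, δ * q ≤ ‖hat (Dl d z.1 (gG q h N)) (τ z.1)‖) →
            ∃ (W : Type) (_ : Fintype W) (a : W → ZMod q) (p : W → ℕ) (κ : W → ZMod q)
              (Q r : ZMod q) (c : Fin d → ZMod q)
              (F : Finset ((Fin d → ZMod q) × (Fin d → ZMod q))),
              Fintype.card W ≤ k ∧ Q ≠ 0 ∧ (∀ w, 1 ≤ p w ∧ p w ≤ B) ∧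
              (∀ w, a w * (p w : ZMod q) = Q) ∧ f * (q : ℝ) ^ (2 * d) ≤ (F.card : ℝ) ∧
              (∀ z ∈ F, ∀ w, (aff c (a w) z.1, z.2) ∈ R) ∧
              (∀ z ∈ F, ∑ w, κ w * τ (aff c (a w) z.1) = r) ∧ ∑ w, κ w * a w ^ d ≠ 0

open Classical in
/-- [SP] The inductive step. -/
def T_SP : Prop :=
  ∀ (d l : ℕ) (h : Fin l → ℕ) (δ ρ : ℝ), 1 ≤ d → 0 < δ → 0 < ρ →
    ∃ δ' : ℝ, 0 < δ' ∧ ∃ K : ℕ, ∀ x y : ℕ, 0 < x → K * x ≤ y →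
      ∑ N ∈ (Finset.Icc x y).filter (fun N : ℕ => ∃ q : ℕ, ∃ _ : NeZero q, q.Prime ∧ 5 * N ≤ q ∧
        q ≤ 10 * N + 10 ∧ δ * (q : ℝ) ^ (d + 3) ≤ Gw (d + 2) (gG q h N) ∧
        Gw (d + 1) (gG q h N) < δ' * (q : ℝ) ^ (d + 2)),
        (1 / (N : ℝ)) ≤ ρ * Real.log ((y : ℝ) / x)

end Pool.Agent.H28.GU
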