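import Pool.Agent.H31.DP.Defs

/-!
Definitions for the project GU (Gowers uniformity of the two point correlations) on
`MP_c59857_nt`.
-/

set_option autoImplicit false

open Finset Filter Topology

namespace Pool.Agent.H28.GU

open Pool.Agent.H31.DP (FF)

/-! ## Cube products -/

/-- The product of `u` over the cube with base point `n` and sides `s`. -/
def Dl {G : Type} [Add G] : (d : ℕ) → (Fin d → G) → (G → ℝ) → G → ℝ
  | 0, _, u => u
  | d + 1, s, u => Dl d (Fin.tail s) (fun x => u x * u (x + s 0))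

section Cyclic

variable {q : ℕ} [NeZero q]

/-- The Fourier transform of a real function on `ZMod q` (not normalised). -/
noncomputable def hat (u : ZMod q → ℝ) (ξ : ZMod q) : ℂ :=
  ∑ n : ZMod q, ((u n : ℝ) : ℂ) * ZMod.stdAddChar (n * ξ)

/-- The power of the Gowers norm `U ^ d` of `u` on `ZMod q` (not normalised). -/
noncomputable def Gw (d : ℕ) (u : ZMod q → ℝ) : ℝ := ∑ s : Fin d → ZMod q, ∑ n, Dl d s u n

/-- The graph of `τ` on `S`. -/
def graph (S : Finset (ZMod q)) (τ : ZMod q → ZMod q) : Finset (ZMod q × ZMod q) :=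
  S.image (fun s => (s, τ s))

/-- The map `τ` is a Freiman homomorphism of order `6` on `S`. -/
def Frei (S : Finset (ZMod q)) (τ : ZMod q → ZMod q) : Prop :=
  ∀ x y : Fin 6 → ZMod q, (∀ j, x j ∈ S) → (∀ j, y j ∈ S) → ∑ j, x j = ∑ j, y j →
    ∑ j, τ (x j) = ∑ j, τ (y j)

/-- The map `τ` is a Freiman homomorphism of order `6` on `S` in the variable `i`. -/
def FreiAt {d : ℕ} (S : Finset (Fin d → ZMod q)) (τ : (Fin d → ZMod q) → ZMod q) (i : Fin d) :
    Prop :=
  ∀ (z : Fin d → ZMod q) (x y : Fin 6 → ZMod q), (∀ j, Function.update z i (x j) ∈ S) →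
    (∀ j, Function.update z i (y j) ∈ S) → ∑ j, x j = ∑ j, y j →
    ∑ j, τ (Function.update z i (x j)) = ∑ j, τ (Function.update z i (y j))

/-- The map `τ` is a Freiman homomorphism of order `6` on `S` in each variable. -/
def FreiV {d : ℕ} (S : Finset (Fin d → ZMod q)) (τ : (Fin d → ZMod q) → ZMod q) : Prop :=
  ∀ i, FreiAt S τ i

/-- The distance of `x / q` to the nearest integer. -/
noncomputable def nr (x : ZMod q) : ℝ := |((x.valMinAbs : ℤ) : ℝ)| / q

open Classical in
/-- The Bohr set. -/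
noncomputable def Boh (Λ : Finset (ZMod q)) (ε : ℝ) : Finset (ZMod q) :=
  Finset.univ.filter (fun h => ∀ l ∈ Λ, nr (l * h) ≤ ε)

/-- The mixture of two vectors: the coordinates in `μ` are those of `b`. -/
def mix {d : ℕ} {G : Type} (μ : Finset (Fin d)) (s b : Fin d → G) : Fin d → G :=
  fun i => if i ∈ μ then b i else s i

/-- The dilated vector `c + a s`. -/
def aff {d : ℕ} (c : Fin d → ZMod q) (a : ZMod q) (s : Fin d → ZMod q) : Fin d → ZMod q :=
  fun i => c i + a * s i

/-- The slice of `S` at four values of the first variable. -/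
def slice {d : ℕ} (S : Finset (Fin (d + 1) → ZMod q)) (x : Fin 4 → ZMod q) :
    Finset (Fin d → ZMod q) :=
  Finset.univ.filter (fun z => ∀ j, (Fin.cons (x j) z : Fin (d + 1) → ZMod q) ∈ S)

/-- The signed sum of `τ` over four values of the first variable. -/
def sgn4 {d : ℕ} (τ : (Fin (d + 1) → ZMod q) → ZMod q) (x : Fin 4 → ZMod q) :
    (Fin d → ZMod q) → ZMod q :=
  fun z => τ (Fin.cons (x 0) z) + τ (Fin.cons (x 1) z) - τ (Fin.cons (x 2) z) -
    τ (Fin.cons (x 3) z)

end Cyclic

/-! ## The functions of the problem -/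

open Classical in
/-- The product of `lz` at the points `y + p * h i`, cut to `1 ≤ y ≤ M`. -/
noncomputable def Fc {l : ℕ} (h : Fin l → ℕ) (p M : ℕ) (y : ℤ) : ℝ :=
  if 1 ≤ y ∧ y ≤ (M : ℤ) then FF h p y else 0

/-- The function on `ZMod q` of the scale `N`. -/
noncomputable def gG {l : ℕ} (q : ℕ) (h : Fin l → ℕ) (N : ℕ) (x : ZMod q) : ℝ :=
  Fc h 1 N (x.val : ℤ)

end Pool.Agent.H28.GU
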