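import Pool.Agent.H28.GU.Defs

/-!
Statements of part C (combinatorics on `ZMod q`) of the project GU on `MP_c59857_nt`.
-/

set_option autoImplicit false

open Finset Filter Topology
open scoped Pointwise

namespace Pool.Agent.H28.GU

/-! ## Cube products and the Fourier transform -/

/-- [DL] The algebra of the cube products. -/
def T_DL : Prop :=
  (∀ (G : Type) [AddCommGroup G] (d : ℕ) (s : Fin d → G) (u : G → ℝ) (x : G),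
    Dl d s u x = ∏ A : Finset (Fin d), u (x + ∑ i ∈ A, s i)) ∧
  (∀ (G : Type) [AddCommGroup G] (d : ℕ) (s : Fin (d + 1) → G) (i : Fin (d + 1)) (u : G → ℝ)
    (x : G), Dl (d + 1) s u x = Dl d (i.removeNth s) u x * Dl d (i.removeNth s) u (x + s i)) ∧
  (∀ (G : Type) [AddCommGroup G] (d : ℕ) (s : Fin d → G) (u v : G → ℝ) (x : G),
    Dl d s (fun y => u y * v y) x = Dl d s u x * Dl d s v x) ∧
  (∀ (G : Type) [AddCommGroup G] (d : ℕ) (s : Fin d → G) (t : G) (u : G → ℝ) (x : G),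
    Dl d s (fun y => u (y + t)) x = Dl d s u (x + t)) ∧
  (∀ (G : Type) [AddCommGroup G] (d : ℕ) (s : Fin d → G) (u : G → ℝ), (∀ x, |u x| ≤ 1) →
    ∀ x, |Dl d s u x| ≤ 1)

/-- [HF] Parseval and the fourth moment. -/
def T_HF : Prop :=
  (∀ (q : ℕ) [NeZero q] (u : ZMod q → ℝ), ∑ ξ, ‖hat u ξ‖ ^ 2 = q * ∑ n, (u n) ^ 2) ∧
  (∀ (q : ℕ) [NeZero q] (u : ZMod q → ℝ), ∑ ξ, ‖hat u ξ‖ ^ 4 = q * Gw 2 u)

/-- [C1] A large Gowers norm gives many large Fourier coefficients of derivatives. -/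
def T_C1 : Prop :=
  ∀ (d q : ℕ) [NeZero q] (u : ZMod q → ℝ) (δ : ℝ), (∀ n, |u n| ≤ 1) → 0 < δ →
    δ * (q : ℝ) ^ (d + 3) ≤ Gw (d + 2) u →
    ∃ (S : Finset (Fin d → ZMod q)) (τ : (Fin d → ZMod q) → ZMod q),
      δ / 2 * (q : ℝ) ^ d ≤ (S.card : ℝ) ∧ ∀ s ∈ S, δ / 2 * q ≤ ‖hat (Dl d s u) (τ s)‖

/-! ## Additive structure in one variable -/

/-- [C2] The energy of the graph of the frequencies. -/
def T_C2 : Prop :=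
  ∀ (q : ℕ) [NeZero q] (u : ZMod q → ℝ) (S : Finset (ZMod q)) (τ : ZMod q → ZMod q) (δ : ℝ),
    (∀ n, |u n| ≤ 1) → 0 < δ → δ * q ≤ (S.card : ℝ) →
    (∀ s ∈ S, δ * q ≤ ‖hat (fun n => u n * u (n + s)) (τ s)‖) →
    δ ^ 8 * (q : ℝ) ^ 3 ≤ ((Finset.addEnergy (graph S τ) (graph S τ) : ℕ) : ℝ)

/-- [BSG] The Balog-Szemerédi-Gowers theorem. -/
def T_BSG : Prop :=
  ∀ δ : ℝ, 0 < δ → ∃ c C : ℝ, 0 < c ∧ 0 < C ∧ ∀ (G : Type) [AddCommGroup G] [DecidableEq G]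
    (A : Finset G), A.Nonempty → δ * (A.card : ℝ) ^ 3 ≤ ((Finset.addEnergy A A : ℕ) : ℝ) →
    ∃ A' : Finset G, A' ⊆ A ∧ c * A.card ≤ (A'.card : ℝ) ∧ ((A' - A').card : ℝ) ≤ C * A.card

/-- [FV] The fibre over `0` of the sixfold sums is small. -/
def T_FV : Prop :=
  ∀ (C : ℝ), 0 < C → ∃ k : ℕ, ∀ (q : ℕ) [Fact q.Prime] (Γ : Finset (ZMod q × ZMod q)),
    Γ.Nonempty → Set.InjOn Prod.fst (Γ : Set (ZMod q × ZMod q)) →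
    ((Γ - Γ).card : ℝ) ≤ C * Γ.card →
    ∃ V : Finset (ZMod q), V.card ≤ k ∧ ∀ x y : Fin 6 → ZMod q × ZMod q, (∀ j, x j ∈ Γ) →
      (∀ j, y j ∈ Γ) → ∑ j, (x j).1 = ∑ j, (y j).1 → ∑ j, (x j).2 - ∑ j, (y j).2 ∈ V

/-- [RD] A dilation which moves the nonzero elements of a small set away from `0`. -/
def T_RD : Prop :=
  ∀ k : ℕ, ∃ κ : ℝ, 0 < κ ∧ ∀ (q : ℕ) [Fact q.Prime] (V : Finset (ZMod q)), V.card ≤ k →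
    ∃ r : ZMod q, r ≠ 0 ∧ ∀ v ∈ V, v ≠ 0 → κ ≤ nr (r * v)

/-- [FR] Restriction of a graph of small doubling to the graph of a Freiman homomorphism. -/
def T_FR : Prop :=
  ∀ C : ℝ, 0 < C → ∃ c : ℝ, 0 < c ∧ ∀ (q : ℕ) [Fact q.Prime] (Γ : Finset (ZMod q × ZMod q)),
    Γ.Nonempty → Set.InjOn Prod.fst (Γ : Set (ZMod q × ZMod q)) →
    ((Γ - Γ).card : ℝ) ≤ C * Γ.card →
    ∃ Γ' : Finset (ZMod q × ZMod q), Γ' ⊆ Γ ∧ c * Γ.card ≤ (Γ'.card : ℝ) ∧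
      ∀ x y : Fin 6 → ZMod q × ZMod q, (∀ j, x j ∈ Γ') → (∀ j, y j ∈ Γ') →
        ∑ j, (x j).1 = ∑ j, (y j).1 → ∑ j, (x j).2 = ∑ j, (y j).2

/-- [C3] Energy gives a dense set on which the map is a Freiman homomorphism. -/
def T_C3 : Prop :=
  ∀ δ : ℝ, 0 < δ → ∃ c : ℝ, 0 < c ∧ ∀ (q : ℕ) [Fact q.Prime] (S : Finset (ZMod q))
    (τ : ZMod q → ZMod q),
    δ * (q : ℝ) ^ 3 ≤ ((Finset.addEnergy (graph S τ) (graph S τ) : ℕ) : ℝ) →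
    ∃ S' : Finset (ZMod q), S' ⊆ S ∧ c * q ≤ (S'.card : ℝ) ∧ Frei S' τ

/-- [CL1] Cleaning in one variable. -/
def T_CL1 : Prop :=
  ∀ δ : ℝ, 0 < δ → ∃ c : ℝ, 0 < c ∧ ∀ (d q : ℕ) [Fact q.Prime] (u : ZMod q → ℝ)
    (S : Finset (Fin d → ZMod q)) (τ : (Fin d → ZMod q) → ZMod q) (i : Fin d),
    (∀ n, |u n| ≤ 1) → δ * (q : ℝ) ^ d ≤ (S.card : ℝ) →
    (∀ s ∈ S, δ * q ≤ ‖hat (Dl d s u) (τ s)‖) →
    ∃ S' : Finset (Fin d → ZMod q), S' ⊆ S ∧ c * (q : ℝ) ^ d ≤ (S'.card : ℝ) ∧ FreiAt S' τ i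

/-- [CL] Cleaning in all variables. -/
def T_CL : Prop :=
  ∀ (d : ℕ) (δ : ℝ), 0 < δ → ∃ c : ℝ, 0 < c ∧ ∀ (q : ℕ) [Fact q.Prime] (u : ZMod q → ℝ)
    (S : Finset (Fin d → ZMod q)) (τ : (Fin d → ZMod q) → ZMod q),
    (∀ n, |u n| ≤ 1) → δ * (q : ℝ) ^ d ≤ (S.card : ℝ) →
    (∀ s ∈ S, δ * q ≤ ‖hat (Dl d s u) (τ s)‖) →
    ∃ S' : Finset (Fin d → ZMod q), S' ⊆ S ∧ c * (q : ℝ) ^ d ≤ (S'.card : ℝ) ∧ FreiV S' τ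

/-! ## Bohr sets -/

/-- [NR] The norm `nr`. -/
def T_NR : Prop :=
  ∀ (q : ℕ) [NeZero q], (∀ x : ZMod q, 0 ≤ nr x ∧ nr x ≤ 1 / 2) ∧
    (∀ x : ZMod q, nr (-x) = nr x) ∧ (∀ x y : ZMod q, nr (x + y) ≤ nr x + nr y) ∧
    (∀ (n : ℕ) (x : ZMod q), nr ((n : ZMod q) * x) ≤ n * nr x) ∧
    (∀ x : ZMod q, nr x ≤ 1 / 4 → 0 ≤ (ZMod.stdAddChar x : ℂ).re)

/-- [BG] Bogolyubov. -/
def T_BG : Prop :=
  ∀ α : ℝ, 0 < α → ∃ k : ℕ, ∀ (q : ℕ) [NeZero q] (A : Finset (ZMod q)), α * q ≤ (A.card : ℝ) →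
    ∃ Λ : Finset (ZMod q), Λ.card ≤ k ∧ ∀ h ∈ Boh Λ (1 / 4),
      α ^ 4 / 2 * (q : ℝ) ^ 3 ≤ ((Finset.univ.filter (fun x : Fin 4 → ZMod q =>
        (∀ j, x j ∈ A) ∧ x 0 + x 1 - x 2 - x 3 = h)).card : ℝ)

/-- [BS] The size of Bohr sets. -/
def T_BS : Prop :=
  ∀ (q : ℕ) [NeZero q] (Λ : Finset (ZMod q)) (n : ℕ), 0 < n →
    (q : ℝ) ≤ (n : ℝ) ^ Λ.card * ((Boh Λ (1 / (n : ℝ))).card : ℝ)

/-! ## The reduction of the number of variables -/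

/-- [CO] The core: replacing dilated values by common absolute values. -/
def T_CO : Prop :=
  ∀ (f : ℝ) (B k : ℕ), 0 < f → ∃ f' : ℝ, 0 < f' ∧ ∀ (q : ℕ) [Fact q.Prime] (W : Type)
    [Fintype W] (a : W → ZMod q) (p : W → ℕ) (κ : W → ZMod q) (Q c r : ZMod q)
    (Z : W → Finset (ZMod q)) (φ : W → ZMod q → ZMod q) (E D : Finset (ZMod q)),
    Fintype.card W ≤ k → Q ≠ 0 → (∀ w, 1 ≤ p w ∧ p w ≤ B) → (∀ w, a w * (p w : ZMod q) = Q) →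
    (∀ w, Frei (Z w) (φ w)) → (∀ w, ∀ t ∈ E, c + a w * t ∈ Z w) → (∀ w, ∀ t ∈ D, t ∈ Z w) →
    f * q ≤ (E.card : ℝ) → f * q ≤ (D.card : ℝ) →
    (∀ t ∈ E, ∑ w, κ w * φ w (c + a w * t) = r) →
    f' * (q : ℝ) ^ 4 ≤ ((Finset.univ.filter (fun x : Fin 4 → ZMod q => (∀ j, x j ∈ D) ∧
      ∑ w, κ w * a w * (φ w (x 0) + φ w (x 1) - φ w (x 2) - φ w (x 3)) = 0)).card : ℝ)

/-- [ST] The step from `d + 1` to `d` variables. -/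
def T_ST : Prop :=
  ∀ (f : ℝ) (B k : ℕ), 0 < f → ∃ f' : ℝ, 0 < f' ∧ ∀ (d q : ℕ) [Fact q.Prime] (W : Type)
    [Fintype W] (a : W → ZMod q) (p : W → ℕ) (κ : W → ZMod q) (Q r : ZMod q)
    (c : Fin (d + 1) → ZMod q) (S : Finset (Fin (d + 1) → ZMod q))
    (τ : (Fin (d + 1) → ZMod q) → ZMod q)
    (F : Finset ((Fin (d + 1) → ZMod q) × (Fin (d + 1) → ZMod q))),
    Fintype.card W ≤ k → Q ≠ 0 → (∀ w, 1 ≤ p w ∧ p w ≤ B) → (∀ w, a w * (p w : ZMod q) = Q) →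
    FreiV S τ → f * (q : ℝ) ^ (2 * (d + 1)) ≤ (F.card : ℝ) →
    (∀ z ∈ F, ∀ w, ∀ μ : Finset (Fin (d + 1)), mix μ (aff c (a w) z.1) z.2 ∈ S) →
    (∀ z ∈ F, ∑ w, κ w * τ (aff c (a w) z.1) = r) →
    ∃ X : Finset (Fin 4 → ZMod q), f' * (q : ℝ) ^ 4 ≤ (X.card : ℝ) ∧ ∀ x ∈ X,
      ∃ F' : Finset ((Fin d → ZMod q) × (Fin d → ZMod q)),
        f' * (q : ℝ) ^ (2 * d) ≤ (F'.card : ℝ) ∧
        (∀ z ∈ F', ∀ w, ∀ μ : Finset (Fin d),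
          mix μ (aff (Fin.tail c) (a w) z.1) z.2 ∈ slice S x) ∧
        ∀ z ∈ F', ∑ w, κ w * a w * sgn4 τ x (aff (Fin.tail c) (a w) z.1) = 0

/-- [IN] The decomposition of the frequencies. -/
def T_IN : Prop :=
  ∀ (d : ℕ) (f : ℝ) (B k : ℕ), 0 < f → ∃ f' : ℝ, 0 < f' ∧ ∀ (q : ℕ) [Fact q.Prime] (W : Type)
    [Fintype W] [Nonempty W] (a : W → ZMod q) (p : W → ℕ) (κ : W → ZMod q) (Q r : ZMod q)
    (c : Fin d → ZMod q) (S : Finset (Fin d → ZMod q)) (τ : (Fin d → ZMod q) → ZMod q)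
    (F : Finset ((Fin d → ZMod q) × (Fin d → ZMod q))),
    Fintype.card W ≤ k → Q ≠ 0 → (∀ w, 1 ≤ p w ∧ p w ≤ B) → (∀ w, a w * (p w : ZMod q) = Q) →
    FreiV S τ → f * (q : ℝ) ^ (2 * d) ≤ (F.card : ℝ) →
    (∀ z ∈ F, ∀ w, ∀ μ : Finset (Fin d), mix μ (aff c (a w) z.1) z.2 ∈ S) →
    (∀ z ∈ F, ∑ w, κ w * τ (aff c (a w) z.1) = r) → (d = 0 → r = 0) →
    ∃ (S₁ : Finset (Fin d → ZMod q)) (v : Fin d → (Fin d → ZMod q) → ZMod q), S₁ ⊆ S ∧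
      f' * (q : ℝ) ^ d ≤ (S₁.card : ℝ) ∧ (∀ i z t, v i (Function.update z i t) = v i z) ∧
      ∀ s ∈ S₁, (∑ w, κ w * a w ^ d) * τ s = ∑ i, v i s

/-- [BX] The number of boxes. -/
def T_BX : Prop :=
  ∀ (d q : ℕ) [NeZero q] (α : ℝ) (S : Finset (Fin d → ZMod q)), 0 ≤ α →
    α * (q : ℝ) ^ d ≤ (S.card : ℝ) →
    α ^ (2 ^ d) * (q : ℝ) ^ (2 * d) ≤ ((Finset.univ.filter
      (fun z : (Fin d → ZMod q) × (Fin d → ZMod q) =>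
        ∀ μ : Finset (Fin d), mix μ z.1 z.2 ∈ S)).card : ℝ)

/-- [BC] The box Cauchy-Schwarz inequality. -/
def T_BC : Prop :=
  ∀ (d q : ℕ) [NeZero q] (w : ZMod q → ℝ) (b : Fin d → ZMod q → (Fin d → ZMod q) → ℂ), 1 ≤ d →
    (∀ i n s, ‖b i n s‖ ≤ 1) → (∀ i n s t, b i n (Function.update s i t) = b i n s) →
    ‖∑ n : ZMod q, ∑ s : Fin d → ZMod q, ((w (n + ∑ i, s i) : ℝ) : ℂ) * ∏ i, b i n s‖ ^ (2 ^ d) ≤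
      (q : ℝ) ^ ((d + 1) * (2 ^ d - 1)) * Gw d w

/-- [VN] Decomposed frequencies give a large Gowers norm of lower order. -/
def T_VN : Prop :=
  ∀ (d : ℕ) (f : ℝ), 0 < f → ∃ f' : ℝ, 0 < f' ∧ ∀ (q : ℕ) [NeZero q] (u : ZMod q → ℝ)
    (S : Finset (Fin d → ZMod q)) (v : Fin d → (Fin d → ZMod q) → ZMod q),
    (∀ n, |u n| ≤ 1) → (∀ i z t, v i (Function.update z i t) = v i z) →
    f * (q : ℝ) ^ d ≤ (S.card : ℝ) → (∀ s ∈ S, f * q ≤ ‖hat (Dl d s u) (∑ i, v i s)‖) →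
    f' * (q : ℝ) ^ (d + 2) ≤ Gw (d + 1) u

/-- [PC] The combinatorial half of the inductive step. -/
def T_PC : Prop :=
  ∀ (d : ℕ) (δ : ℝ), 1 ≤ d → 0 < δ → ∃ δ₁ : ℝ, 0 < δ₁ ∧ ∀ (f : ℝ) (B k : ℕ), 0 < f →
    ∃ δ' : ℝ, 0 < δ' ∧ ∀ (q : ℕ) [Fact q.Prime] (u : ZMod q → ℝ), (∀ n, |u n| ≤ 1) →
      δ * (q : ℝ) ^ (d + 3) ≤ Gw (d + 2) u →
      ∃ (τ : (Fin d → ZMod q) → ZMod q) (R : Finset ((Fin d → ZMod q) × (Fin d → ZMod q))),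
        δ₁ * (q : ℝ) ^ (2 * d) ≤ (R.card : ℝ) ∧
        (∀ z ∈ R, δ₁ * q ≤ ‖hat (Dl d z.1 u) (τ z.1)‖) ∧
        ∀ (W : Type) [Fintype W] (a : W → ZMod q) (p : W → ℕ) (κ : W → ZMod q) (Q r : ZMod q)
          (c : Fin d → ZMod q) (F : Finset ((Fin d → ZMod q) × (Fin d → ZMod q))),
          Fintype.card W ≤ k → Q ≠ 0 → (∀ w, 1 ≤ p w ∧ p w ≤ B) →
          (∀ w, a w * (p w : ZMod q) = Q) → f * (q : ℝ) ^ (2 * d) ≤ (F.card : ℝ) →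
          (∀ z ∈ F, ∀ w, (aff c (a w) z.1, z.2) ∈ R) →
          (∀ z ∈ F, ∑ w, κ w * τ (aff c (a w) z.1) = r) → ∑ w, κ w * a w ^ d ≠ 0 →
          δ' * (q : ℝ) ^ (d + 2) ≤ Gw (d + 1) u

end Pool.Agent.H28.GU
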